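import Pool.Agent.H23.HB.Ram0
import Pool.Agent.H92.HB.Stm

/-!
# The module RAM of the project HB
-/

set_option autoImplicit false
set_option linter.all false

namespace Pool.Agent.H23.HB

open Pool.Agent.H92.HB

theorem t_RAM : S_RAM := by
  intro p hp e v d
  obtain ⟨L, hL⟩ := ram0 hp e v d
  refine ⟨L, fun X _ _ hX θ τ g => ?_⟩
  exact hL X (fun x => by rw [pow_succ, pow_mul, hX x, one_pow]) θ τ g

end Pool.Agent.H23.HB
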