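import Pool.Agent.H92.TowerD

/-!
# Blocks at which an integral combination of characters is congruent to its value at one
-/

set_option autoImplicit false
set_option linter.all false

namespace Pool.Agent.H23.HB

open Finset
open Pool.Agent.Y683.CG
open Pool.Agent.H92 (clo towerE Lev)

/-- the ring generated by a root of unity -/
noncomputable def Lam (ζ : ℂ) : Submodule ℤ ℂ := Subalgebra.toSubmodule (Algebra.adjoin ℤ {ζ})

lemma mem_Lam {ζ x : ℂ} : x ∈ Lam ζ ↔ x ∈ Algebra.adjoin ℤ {ζ} := Iff.rfl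

lemma mem_mulR {ζ x : ℂ} (hx : x ∈ Lam ζ) : x ∈ mulR (Lam ζ) := by
  intro y hy
  exact (Algebra.adjoin ℤ {ζ}).mul_mem hx hy

lemma lam_split {ζ x : ℂ} (hx : x ∈ Lam ζ) : ∃ a : ℤ, ∃ y ∈ Lam ζ, x = a + (ζ - 1) * y := by
  refine Algebra.adjoin_induction (p := fun x _ => ∃ a : ℤ, ∃ y ∈ Lam ζ, x = a + (ζ - 1) * y)
    ?_ ?_ ?_ ?_ hx
  · intro x hx
    rw [Set.mem_singleton_iff] at hx
    subst hx
    exact ⟨1, 1, (Algebra.adjoin ℤ {x}).one_mem, by push_cast; ring⟩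
  · intro r
    exact ⟨r, 0, (Lam ζ).zero_mem, by simp⟩
  · rintro x y _ _ ⟨a, u, hu, rfl⟩ ⟨b, v, hv, rfl⟩
    exact ⟨a + b, u + v, (Lam ζ).add_mem hu hv, by push_cast; ring⟩
  · rintro x y _ _ ⟨a, u, hu, rfl⟩ ⟨b, v, hv, rfl⟩
    have hζ : ζ ∈ Algebra.adjoin ℤ {ζ} := Algebra.self_mem_adjoin_singleton ℤ ζ
    have h1 : (1 : ℂ) ∈ Algebra.adjoin ℤ {ζ} := (Algebra.adjoin ℤ {ζ}).one_mem
    have hu' : u ∈ Algebra.adjoin ℤ {ζ} := hu
    have hv' : v ∈ Algebra.adjoin ℤ {ζ} := hv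
    have ha : (a : ℂ) ∈ Algebra.adjoin ℤ {ζ} := (Algebra.adjoin ℤ {ζ}).intCast_mem a
    have hb : (b : ℂ) ∈ Algebra.adjoin ℤ {ζ} := (Algebra.adjoin ℤ {ζ}).intCast_mem b
    refine ⟨a * b, a * v + b * u + (ζ - 1) * u * v, ?_, by push_cast; ring⟩
    exact Subalgebra.add_mem _ (Subalgebra.add_mem _ (Subalgebra.mul_mem _ ha hv')
      (Subalgebra.mul_mem _ hb hu')) (Subalgebra.mul_mem _ (Subalgebra.mul_mem _
        (Subalgebra.sub_mem _ hζ h1) hu') hv')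

lemma isIntegral_of_pow {N : ℕ} (hN : 0 < N) {ζ : ℂ} (h : ζ ^ N = 1) : IsIntegral ℤ ζ := by
  refine ⟨Polynomial.X ^ N - 1, Polynomial.monic_X_pow_sub_C 1 hN.ne', ?_⟩
  simp [h]

lemma lam_int {N : ℕ} (hN : 0 < N) {ζ : ℂ} (h : ζ ^ N = 1) {x : ℂ} (hx : x ∈ Lam ζ) :
    IsIntegral ℤ x := by
  have h1 : Algebra.adjoin ℤ {ζ} ≤ integralClosure ℤ ℂ := by
    rw [Algebra.adjoin_le_iff]
    intro y hy
    rw [Set.mem_singleton_iff] at hy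
    subst hy
    exact isIntegral_of_pow hN h
  exact h1 hx

lemma p_mem {p k : ℕ} (hp : p.Prime) {ζ : ℂ} (hζ : IsPrimitiveRoot ζ (p ^ (k + 1))) :
    ∃ y ∈ Lam ζ, (p : ℂ) = (ζ - 1) * y := by
  have : Fact p.Prime := ⟨hp⟩
  set R := Algebra.adjoin ℤ {ζ} with hR
  set z : R := ⟨ζ, Algebra.self_mem_adjoin_singleton ℤ ζ⟩ with hz
  obtain ⟨y, hy⟩ := Polynomial.sub_dvd_eval_sub z 1 (Polynomial.cyclotomic (p ^ (k + 1)) R)
  have h1 : (Polynomial.cyclotomic (p ^ (k + 1)) R).eval 1 = p :=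
    Polynomial.eval_one_cyclotomic_prime_pow k
  have h2 : (Polynomial.cyclotomic (p ^ (k + 1)) R).eval z = 0 := by
    apply Subtype.ext
    have h3 := hζ.isRoot_cyclotomic (pow_pos hp.pos (k + 1))
    have h4 : Polynomial.cyclotomic (p ^ (k + 1)) ℂ =
        (Polynomial.cyclotomic (p ^ (k + 1)) R).map R.val.toRingHom :=
      (Polynomial.map_cyclotomic _ _).symm
    rw [h4, Polynomial.IsRoot.def, Polynomial.eval_map] at h3
    have h5 := Polynomial.hom_eval₂ (Polynomial.cyclotomic (p ^ (k + 1)) R) (RingHom.id R)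
      R.val.toRingHom z
    rw [RingHom.comp_id] at h5
    have h6 : R.val.toRingHom z = ζ := rfl
    rw [h6, h3] at h5
    exact h5
  rw [h1, h2, zero_sub] at hy
  refine ⟨-y, Subalgebra.neg_mem _ y.2, ?_⟩
  have h7 := congrArg (Subtype.val) hy
  push_cast at h7
  have h8 : ((z : R) : ℂ) = ζ := rfl
  rw [h8] at h7
  linear_combination -h7

lemma max_exists {p : ℕ} (hp : p.Prime) : ∃ 𝔪 : Ideal (integralClosure ℤ ℂ), 𝔪.IsMaximal ∧
    (p : integralClosure ℤ ℂ) ∈ 𝔪 := by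
  have h1 : Ideal.span {(p : integralClosure ℤ ℂ)} ≠ ⊤ := by
    intro h
    rw [Ideal.eq_top_iff_one, Ideal.mem_span_singleton'] at h
    obtain ⟨y, hy⟩ := h
    have h2 : (y : ℂ) * p = 1 := by
      have := congrArg Subtype.val hy
      push_cast at this
      exact this
    have hp0 : (p : ℂ) ≠ 0 := by exact_mod_cast hp.ne_zero
    have h3 : (y : ℂ) = algebraMap ℚ ℂ (1 / p : ℚ) := by
      have : (y : ℂ) = 1 / p := by field_simp; exact h2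
      rw [this]
      simp
    have h4 : IsIntegral ℤ (algebraMap ℚ ℂ (1 / p : ℚ)) := by
      rw [← h3]
      exact y.2
    have h5 : IsIntegral ℤ (1 / p : ℚ) := (isIntegral_algebraMap_iff
      (algebraMap ℚ ℂ).injective).1 h4
    obtain ⟨m, hm⟩ := IsIntegrallyClosed.isIntegral_iff.1 h5
    have hp1 : (p : ℚ) ≠ 0 := by exact_mod_cast hp.ne_zero
    have h6 : (m : ℚ) * p = 1 := by
      have : (m : ℚ) = 1 / p := hm
      rw [this]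
      field_simp
    have h7 : m * (p : ℤ) = 1 := by exact_mod_cast h6
    have h8 : (p : ℤ) ∣ 1 := ⟨m, by rw [← h7]; ring⟩
    have h9 : p ∣ 1 := by exact_mod_cast h8
    exact hp.one_lt.ne' (Nat.dvd_one.1 h9)
  obtain ⟨𝔪, h2, h3⟩ := Ideal.exists_le_maximal _ h1
  exact ⟨𝔪, h2, h3 (Ideal.mem_span_singleton_self _)⟩

lemma int_notMem {p : ℕ} (hp : p.Prime) {𝔪 : Ideal (integralClosure ℤ ℂ)} (hm : 𝔪.IsMaximal)
    (hpm : (p : integralClosure ℤ ℂ) ∈ 𝔪) {a : ℤ} (ha : ¬ (p : ℤ) ∣ a) :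
    (a : integralClosure ℤ ℂ) ∉ 𝔪 := by
  intro h
  have h1 : IsCoprime (p : ℤ) a := (Nat.prime_iff_prime_int.1 hp).coprime_iff_not_dvd.2 ha
  obtain ⟨u, v, huv⟩ := h1
  refine hm.ne_top ((Ideal.eq_top_iff_one _).2 ?_)
  have h2 : (1 : integralClosure ℤ ℂ) = u * p + v * a := by
    have := congrArg (Int.cast (R := integralClosure ℤ ℂ)) huv
    push_cast at this
    exact this.symm
  rw [h2]
  exact 𝔪.add_mem (𝔪.mul_mem_left _ hpm) (𝔪.mul_mem_left _ h)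

lemma root_pow {p e : ℕ} (hp : p.Prime) {ζ : ℂ} (h : ζ ^ p ^ e = 1) :
    ∃ z y : integralClosure ℤ ℂ, (z : ℂ) = ζ - 1 ∧ z ^ p ^ e = p * y := by
  have hz : IsIntegral ℤ ζ := isIntegral_of_pow (pow_pos hp.pos e) h
  set z : integralClosure ℤ ℂ := ⟨ζ, hz⟩ with hzd
  obtain ⟨r, hr⟩ := exists_add_pow_prime_pow_eq hp (z - 1) 1 e
  refine ⟨z - 1, -((z - 1) * r), rfl, ?_⟩
  have h1 : z ^ p ^ e = 1 := Subtype.ext (by push_cast; exact h)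
  rw [sub_add_cancel, h1, one_pow] at hr
  linear_combination -hr

lemma root_mem {p e : ℕ} (hp : p.Prime) {𝔪 : Ideal (integralClosure ℤ ℂ)} (hm : 𝔪.IsMaximal)
    (hpm : (p : integralClosure ℤ ℂ) ∈ 𝔪) {ζ : ℂ} (h : ζ ^ p ^ e = 1) :
    ∃ z : integralClosure ℤ ℂ, (z : ℂ) = ζ - 1 ∧ z ∈ 𝔪 := by
  obtain ⟨z, y, h1, h2⟩ := root_pow hp h
  refine ⟨z, h1, hm.isPrime.mem_of_pow_mem (p ^ e) ?_⟩
  rw [h2]
  exact 𝔪.mul_mem_right _ hpm

/-- the deep steps of the filtration are divisible by powers of `ζ - 1` -/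
lemma fil_small {p k : ℕ} (hp : p.Prime) {ζ : ℂ} (hζ : IsPrimitiveRoot ζ (p ^ (k + 1)))
    {𝔪 : Ideal (integralClosure ℤ ℂ)} (hm : 𝔪.IsMaximal) (hpm : (p : integralClosure ℤ ℂ) ∈ 𝔪)
    {Fil : ℕ → Submodule ℤ ℂ} (hF : FilX (Lam ζ) 𝔪 Fil) (J : ℕ) :
    ∃ n0, ∀ x ∈ Fil (n0 + 1), ∃ u ∈ Lam ζ, x = (ζ - 1) ^ J * u := by
  have h1mem : (1 : ℂ) ∈ Lam ζ := (Algebra.adjoin ℤ {ζ}).one_mem
  have hζmem : ζ ∈ Lam ζ := Algebra.self_mem_adjoin_singleton ℤ ζ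
  have hπmem : ζ - 1 ∈ Lam ζ := (Lam ζ).sub_mem hζmem h1mem
  have hπpow : ∀ j, (ζ - 1) ^ j ∈ Lam ζ := fun j =>
    Subalgebra.pow_mem (Algebra.adjoin ℤ {ζ}) hπmem j
  obtain ⟨z, hz1, hz2⟩ := root_mem hp hm hpm (e := k + 1) hζ.pow_eq_one
  obtain ⟨q, hq1, hq2⟩ := p_mem hp hζ
  have hpow0 : 0 < p ^ (k + 1) := pow_pos hp.pos _
  have hπ0 : ζ - 1 ≠ 0 := by
    intro h
    rw [h, zero_mul] at hq2
    exact hp.ne_zero (by exact_mod_cast hq2)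
  -- elements not in the ideal
  have hkey : ∀ u ∈ Lam ζ, (∃ y ∈ Lam ζ, u = (ζ - 1) * y) ∨
      ∃ x : integralClosure ℤ ℂ, (x : ℂ) = u ∧ x ∉ 𝔪 := by
    intro u hu
    obtain ⟨a, y, hy, huy⟩ := lam_split hu
    by_cases ha : (p : ℤ) ∣ a
    · left
      obtain ⟨b, rfl⟩ := ha
      refine ⟨q * b + y, ?_, ?_⟩
      · exact (Lam ζ).add_mem (Subalgebra.mul_mem (Algebra.adjoin ℤ {ζ}) hq1
          ((Algebra.adjoin ℤ {ζ}).intCast_mem b)) hy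
      · rw [huy]
        push_cast
        rw [hq2]
        ring
    · right
      set yy : integralClosure ℤ ℂ := ⟨y, lam_int hpow0 hζ.pow_eq_one hy⟩ with hyy
      refine ⟨a + z * yy, ?_, ?_⟩
      · rw [huy]
        push_cast
        rw [hz1]
      · intro h
        have h2 : (a : integralClosure ℤ ℂ) ∈ 𝔪 := by
          have h3 := 𝔪.sub_mem h (𝔪.mul_mem_right yy hz2)
          rwa [add_sub_cancel_right] at h3
        exact int_notMem hp hm hpm ha h2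
  choose V hV using fun j : ℕ => hF.sep ((ζ - 1) ^ j) (hπpow j) (pow_ne_zero j hπ0)
  refine ⟨∑ j ∈ range J, V j, fun x hx => ?_⟩
  have hxL : x ∈ Lam ζ := (hF.zero x).1 (hF.le (Nat.zero_le _) hx)
  have hind : ∀ j ≤ J, ∃ u ∈ Lam ζ, x = (ζ - 1) ^ j * u := by
    intro j
    induction j with
    | zero =>
      intro _
      exact ⟨x, hxL, by rw [pow_zero, one_mul]⟩
    | succ j ih =>
      intro hj
      obtain ⟨u, hu, hxu⟩ := ih (by omega)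
      rcases hkey u hu with ⟨y, hy, huy⟩ | hE
      · exact ⟨y, hy, by rw [hxu, huy, pow_succ, mul_assoc]⟩
      · exfalso
        have h2 : u * (ζ - 1) ^ j ∈ Fil (∑ j ∈ range J, V j + 1) := by
          rw [mul_comm, ← hxu]
          exact hx
        have h3 := hF.unit _ u (mem_mulR hu) hE _ (hπpow j) h2
        refine hV j (hF.le ?_ h3)
        have h4 : V j ≤ ∑ j ∈ range J, V j :=
          single_le_sum (f := V) (fun _ _ => Nat.zero_le _) (mem_range.2 (by omega))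
        omega
  exact hind J le_rfl

theorem ram0 {p : ℕ} (hp : p.Prime) (k v d : ℕ) : ∃ L : ℕ → ℕ, ∀ (X : Type) [CommGroup X]
    [Finite X], (∀ x : X, x ^ p ^ (k + 1) = 1) → ∀ (θ : (X →* ℂˣ) → ℤ) (τ : Fin d → X →* X)
    (g : ℕ → X),
    ∃ B : ℕ → Finset ℕ, (∀ k, (B k).Nonempty ∧ B k ⊆ Finset.Ico (L k) (L (k + 1))) ∧
    ∀ x ∈ clo τ g B, ∃ y : integralClosure ℤ ℂ,
      (∑ᶠ g : X →* ℂˣ, (θ g : ℂ) * ((g x : ℂˣ) : ℂ)) =
      (∑ᶠ g : X →* ℂˣ, (θ g : ℂ) * ((g 1 : ℂˣ) : ℂ)) + (p : ℂ) ^ (v + 1) * y := by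
  classical
  set ζ : ℂ := Complex.exp (2 * Real.pi * Complex.I / (p ^ (k + 1) : ℕ)) with hζd
  have hpow0 : 0 < p ^ (k + 1) := pow_pos hp.pos _
  have hζ : IsPrimitiveRoot ζ (p ^ (k + 1)) := Complex.isPrimitiveRoot_exp _ hpow0.ne'
  obtain ⟨𝔪, hm, hpm⟩ := max_exists hp
  have h1mem : (1 : ℂ) ∈ Lam ζ := (Algebra.adjoin ℤ {ζ}).one_mem
  have hFG : (Lam ζ).FG := (isIntegral_of_pow hpow0 hζ.pow_eq_one).fg_adjoin_singleton
  have hne : Lam ζ ≠ ⊥ := by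
    intro h
    rw [h, Submodule.mem_bot] at h1mem
    exact one_ne_zero h1mem
  obtain ⟨Fil, hF⟩ := filx_exists hp hFG hne 𝔪 hm hpm
  obtain ⟨n0, hn0⟩ := fil_small hp hζ hm hpm hF (p ^ (k + 1) * (v + 1))
  have hroot : ∀ ξ : ℂ, ξ ^ (p ^ (k + 1)) = 1 → ξ ∈ mulR (Lam ζ) ∧
        ∃ y : integralClosure ℤ ℂ, (y : ℂ) = ξ - 1 ∧ y ∈ 𝔪 := by
    intro ξ hξ
    refine ⟨mem_mulR ?_, root_mem hp hm hpm hξ⟩
    have : NeZero (p ^ (k + 1)) := ⟨hpow0.ne'⟩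
    obtain ⟨i, _, rfl⟩ := hζ.eq_pow_of_pow_eq_one hξ
    exact Subalgebra.pow_mem (Algebra.adjoin ℤ {ζ}) (Algebra.self_mem_adjoin_singleton ℤ ζ) i
  obtain ⟨L, hL⟩ := towerE d (p ^ (k + 1)) hpow0 hF n0 hroot
  refine ⟨L, fun X _ _ hX θ τ g => ?_⟩
  have hfin : Finite (X →* ℂˣ) := inferInstance
  have : Fintype (X →* ℂˣ) := Fintype.ofFinite _
  have hlev : Lev (X := X) (U := X →* ℂˣ) (ι := ℕ) (Lam ζ) (Fil (n0 + 1)) (p ^ (k + 1))
      (fun _ => univ) (fun _ u x => ((u x : ℂˣ) : ℂ)) (fun _ u => (θ u : ℂ)) (fun _ => ∅)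
      (fun _ => True) := by
    refine ⟨hX, rfl, fun _ _ => empty_subset _, fun T u _ => ?_, fun T u _ χ φ _ _ => ?_,
      fun _ _ _ _ => trivial, trivial, fun T _ u _ => ?_, fun T T' _ _ _ χ _ h => h⟩
    · rw [map_one, Units.val_one]
    · rw [map_mul, Units.val_mul]
    · exact (Algebra.adjoin ℤ {ζ}).intCast_mem (θ u)
  obtain ⟨B, hB1, hB2⟩ := hL X (X →* ℂˣ) ℕ (fun _ => univ) (fun _ u x => ((u x : ℂˣ) : ℂ))
    (fun _ u => (θ u : ℂ)) (fun _ => ∅) (fun _ => True) hlev (fun _ _ _ _ => trivial) τ g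
    (fun _ _ => trivial)
  refine ⟨B, hB1, fun x hx => ?_⟩
  obtain ⟨T, _, _, hT⟩ := hB2 x hx
  obtain ⟨u, hu, hxu⟩ := hn0 _ hT
  obtain ⟨z, y, hz1, hz2⟩ := root_pow hp hζ.pow_eq_one
  refine ⟨y ^ (v + 1) * ⟨u, lam_int hpow0 hζ.pow_eq_one hu⟩, ?_⟩
  rw [finsum_eq_sum_of_fintype, finsum_eq_sum_of_fintype]
  have h2 : ∑ g : X →* ℂˣ, (θ g : ℂ) * ((g 1 : ℂˣ) : ℂ) = ∑ g : X →* ℂˣ, (θ g : ℂ) :=
    sum_congr rfl fun u _ => by rw [map_one, Units.val_one, mul_one]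
  rw [h2]
  have h3 : (z : ℂ) ^ (p ^ (k + 1)) = p * y := by
    have := congrArg Subtype.val hz2
    push_cast at this
    exact this
  have h4 : (ζ - 1) ^ (p ^ (k + 1) * (v + 1)) = (p : ℂ) ^ (v + 1) * (y : ℂ) ^ (v + 1) := by
    rw [pow_mul, ← hz1, h3, mul_pow]
  rw [h4] at hxu
  have h5 := eq_add_of_sub_eq hxu
  rw [h5]
  push_cast
  ring

end Pool.Agent.H23.HB
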